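import Mathlib

/-!
# Definitions for the distinct-circumradii problem

All notions are the ones of the problem file: general position means that no three points are
collinear and no four points lie on a common circle.
-/

open Finset

namespace Pool.Agent.Lib.MP_cd3201_co

/-- The Euclidean plane. -/
abbrev Plane : Type := EuclideanSpace ℝ (Fin 2)

/-- `r` is the radius of a circle passing through all points of `T`. For a non-collinear
three-element set `T` there is exactly one such circle (`existsUnique_circle`), so that `r` is then
the circumradius of `T`. -/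
def IsCircumradius (T : Finset Plane) (r : ℝ) : Prop :=
  ∃ c : Plane, ∀ x ∈ T, dist x c = r

/-- General position: no three points are collinear and no four points are on a common circle. -/
def GeneralPosition (X : Finset Plane) : Prop :=
  (∀ T ⊆ X, T.card = 3 → ¬ Collinear ℝ (T : Set Plane)) ∧
  (∀ Q ⊆ X, Q.card = 4 → ¬ EuclideanGeometry.Cospherical (Q : Set Plane))

/-- Different three-element subsets of `Y` have different circumradii. -/
def DistinctCircumradii (Y : Finset Plane) : Prop :=
  ∀ T ⊆ Y, ∀ T' ⊆ Y, T.card = 3 → T'.card = 3 → T ≠ T' →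
    ∀ r r' : ℝ, IsCircumradius T r → IsCircumradius T' r' → r ≠ r'

/-- Every `m`-point set in general position contains a `k`-point subset with distinct circumradii.
The number `n_k` of the problem is the least `m` with `Forces m k`. -/
def Forces (m k : ℕ) : Prop :=
  ∀ X : Finset Plane, X.card = m → GeneralPosition X →
    ∃ Y ⊆ X, Y.card = k ∧ DistinctCircumradii Y

lemma finrank_plane : Module.finrank ℝ Plane = 2 := by simp

/-- Three distinct points lie on circles with at most one centre. -/
lemma center_unique {T : Finset Plane} (hT : T.card = 3) {c c' : Plane} {r r' : ℝ}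
    (h : ∀ x ∈ T, dist x c = r) (h' : ∀ x ∈ T, dist x c' = r') : c = c' := by
  by_contra hne
  rw [Finset.card_eq_three] at hT
  obtain ⟨x, y, z, hxy, hxz, hyz, rfl⟩ := hT
  have := EuclideanGeometry.eq_of_dist_eq_of_dist_eq_of_finrank_eq_two finrank_plane
    (c₁ := c) (c₂ := c') (p₁ := x) (p₂ := y) (p := z) hne hxy
    (h x (by simp)) (h y (by simp)) (h z (by simp))
    (h' x (by simp)) (h' y (by simp)) (h' z (by simp))
  rcases this with h1 | h1
  · exact hxz h1.symm
  · exact hyz h1.symm

lemma circumradius_unique {T : Finset Plane} (hT : T.card = 3) {r r' : ℝ}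
    (h : IsCircumradius T r) (h' : IsCircumradius T r') : r = r' := by
  obtain ⟨c, hc⟩ := h
  obtain ⟨c', hc'⟩ := h'
  have := center_unique hT hc hc'
  subst this
  have hne : T.Nonempty := by rw [← card_pos, hT]; norm_num
  obtain ⟨x, hx⟩ := hne
  rw [← hc x hx, hc' x hx]

/-- A non-collinear triple lies on a circle. -/
lemma exists_circumradius {T : Finset Plane} (hT : T.card = 3)
    (hcol : ¬ Collinear ℝ (T : Set Plane)) : ∃ r, IsCircumradius T r := by
  rw [Finset.card_eq_three] at hT
  obtain ⟨x, y, z, hxy, hxz, hyz, rfl⟩ := hT
  have hcol' : ¬ Collinear ℝ ({x, y, z} : Set Plane) := by simpa using hcol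
  rw [← affineIndependent_iff_not_collinear_set] at hcol'
  let s : Affine.Simplex ℝ Plane 2 := ⟨![x, y, z], hcol'⟩
  refine ⟨s.circumradius, s.circumcenter, ?_⟩
  intro w hw
  have h0 := s.dist_circumcenter_eq_circumradius 0
  have h1 := s.dist_circumcenter_eq_circumradius 1
  have h2 := s.dist_circumcenter_eq_circumradius 2
  simp only [mem_insert, mem_singleton] at hw
  rcases hw with rfl | rfl | rfl
  · exact h0
  · exact h1
  · exact h2

/-- Sanity check: a non-collinear triple of points lies on exactly one circle, with centre `p.1` and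
radius `p.2`. -/
theorem existsUnique_circle {T : Finset Plane} (hT : T.card = 3)
    (hcol : ¬ Collinear ℝ (T : Set Plane)) :
    ∃! p : Plane × ℝ, ∀ x ∈ T, dist x p.1 = p.2 := by
  obtain ⟨r, c, hc⟩ := exists_circumradius hT hcol
  refine ⟨(c, r), hc, ?_⟩
  rintro ⟨c', r'⟩ h
  have h1 : c' = c := center_unique hT h hc
  have h2 : r' = r := circumradius_unique hT ⟨c', h⟩ ⟨c, hc⟩
  rw [h1, h2]

end Pool.Agent.Lib.MP_cd3201_co
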