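import Mathlib
import Pool.Agent.Lib.MP_cd3201_co.Defs
import Pool.Agent.Lib.MP_cd3201_co.Generic

/-!
# Generic planar projections of lattice points on a sphere

They are in general position, and a subset with distinct circumradii contains no parallelogram.
-/

open Finset

namespace Pool.Agent.Lib.MP_cd3201_co

variable {d : ℕ}

/-- Integer vectors as real vectors. -/
def toR (x : Fin d → ℕ) : Fin d → ℝ := fun i => (x i : ℝ)

lemma toR_injective : Function.Injective (toR (d := d)) := by
  intro x y h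
  funext i
  have := congrFun h i
  simp only [toR] at this
  exact_mod_cast this

lemma toR_add (x y : Fin d → ℕ) : toR (x + y) = toR x + toR y := by
  funext i; simp [toR]

lemma notParallel_of_sphere {R : ℕ} {a₀ a b : Fin d → ℕ} (h₀ : ∑ i, a₀ i ^ 2 = R)
    (ha : ∑ i, a i ^ 2 = R) (hb : ∑ i, b i ^ 2 = R) (h0a : a₀ ≠ a) (h0b : a₀ ≠ b) (hab : a ≠ b) :
    NotParallel (toR a - toR a₀) (toR b - toR a₀) := by
  have hsq : ∀ x : Fin d → ℕ, ∑ i, x i ^ 2 = R → toR x ⬝ᵥ toR x = (R : ℝ) := by
    intro x hx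
    rw [← hx]
    push_cast
    simp only [dotProduct, toR]
    apply Finset.sum_congr rfl
    intro i _
    ring
  constructor
  · intro h
    apply h0a
    exact toR_injective (sub_eq_zero.mp h).symm
  · intro c hc
    set p := toR a - toR a₀ with hp
    have ea : toR a = toR a₀ + p := by rw [hp]; abel
    have eb : toR b = toR a₀ + c • p := by rw [← hc]; abel
    have h1 := hsq a ha
    have h2 := hsq b hb
    have h3 := hsq a₀ h₀
    rw [ea] at h1
    rw [eb] at h2
    simp only [add_dotProduct, dotProduct_add, smul_dotProduct, dotProduct_smul, smul_eq_mul]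
      at h1 h2
    have hcomm : p ⬝ᵥ toR a₀ = toR a₀ ⬝ᵥ p := dotProduct_comm _ _
    rw [hcomm] at h1 h2
    have h4 : c * (c - 1) * (p ⬝ᵥ p) = 0 := by
      linear_combination h2 - c * h1 - (1 - c) * h3
    have hpp : p ⬝ᵥ p ≠ 0 := by
      intro h
      have : p = 0 := dotProduct_self_eq_zero.mp h
      apply h0a
      rw [hp] at this
      exact toR_injective (sub_eq_zero.mp this).symm
    rcases mul_eq_zero.mp h4 with h5 | h5
    · rcases mul_eq_zero.mp h5 with h6 | h6
      · apply h0b
        rw [h6, zero_smul, add_zero] at eb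
        exact toR_injective eb.symm
      · have h7 : c = 1 := by linarith
        apply hab
        rw [h7, one_smul] at eb
        exact toR_injective (ea.trans eb.symm)
    · exact hpp h5

/-- The projection to the plane with coefficients `z`. -/
noncomputable def proj (z : Fin 2 × Fin d → ℝ) (x : Fin d → ℕ) : Plane :=
  !₂[(fun i => z (0, i)) ⬝ᵥ toR x, (fun i => z (1, i)) ⬝ᵥ toR x]

lemma proj_zero (z : Fin 2 × Fin d → ℝ) (x : Fin d → ℕ) :
    proj z x 0 = (fun i => z (0, i)) ⬝ᵥ toR x := rfl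

lemma proj_one (z : Fin 2 × Fin d → ℝ) (x : Fin d → ℕ) :
    proj z x 1 = (fun i => z (1, i)) ⬝ᵥ toR x := rfl

lemma proj_add (z : Fin 2 × Fin d → ℝ) (x y : Fin d → ℕ) :
    proj z (x + y) = proj z x + proj z y := by
  ext i
  fin_cases i
  · simp only [Fin.zero_eta, PiLp.add_apply, proj_zero, toR_add, dotProduct_add]
  · simp only [Fin.mk_one, PiLp.add_apply, proj_one, toR_add, dotProduct_add]

lemma cross_eq_zero_of_collinear {x y z : Plane} (h : Collinear ℝ ({x, y, z} : Set Plane)) :
    (y 0 - x 0) * (z 1 - x 1) - (y 1 - x 1) * (z 0 - x 0) = 0 := by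
  rw [collinear_iff_of_mem (p₀ := x) (by simp)] at h
  obtain ⟨v, hv⟩ := h
  obtain ⟨r, hr⟩ := hv y (by simp)
  obtain ⟨s, hs⟩ := hv z (by simp)
  rw [hr, hs]
  simp only [vadd_eq_add, PiLp.add_apply, PiLp.smul_apply, smul_eq_mul]
  ring

lemma sq_dist_eq (x c : Plane) : dist x c ^ 2 = (x 0 - c 0) ^ 2 + (x 1 - c 1) ^ 2 := by
  rw [EuclideanSpace.dist_eq, Real.sq_sqrt (by positivity), Fin.sum_univ_two, Real.dist_eq,
    Real.dist_eq, sq_abs, sq_abs]

lemma detCirc_eq_zero_of_cospherical {x y z w : Plane}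
    (h : EuclideanGeometry.Cospherical ({x, y, z, w} : Set Plane)) :
    detCirc (y 0 - x 0) (z 0 - x 0) (w 0 - x 0) (y 1 - x 1) (z 1 - x 1) (w 1 - x 1) = 0 := by
  obtain ⟨c, r, hr⟩ := h
  have hx := sq_dist_eq x c
  have hy := sq_dist_eq y c
  have hz := sq_dist_eq z c
  have hw := sq_dist_eq w c
  rw [hr x (by simp)] at hx
  rw [hr y (by simp)] at hy
  rw [hr z (by simp)] at hz
  rw [hr w (by simp)] at hw
  have E1 : (y 0 - x 0) ^ 2 + (y 1 - x 1) ^ 2 -
      (2 * (c 0 - x 0) * (y 0 - x 0) + 2 * (c 1 - x 1) * (y 1 - x 1)) = 0 := by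
    linear_combination hx - hy
  have E2 : (z 0 - x 0) ^ 2 + (z 1 - x 1) ^ 2 -
      (2 * (c 0 - x 0) * (z 0 - x 0) + 2 * (c 1 - x 1) * (z 1 - x 1)) = 0 := by
    linear_combination hx - hz
  have E3 : (w 0 - x 0) ^ 2 + (w 1 - x 1) ^ 2 -
      (2 * (c 0 - x 0) * (w 0 - x 0) + 2 * (c 1 - x 1) * (w 1 - x 1)) = 0 := by
    linear_combination hx - hw
  unfold detCirc
  linear_combination ((y 0 - x 0) * (z 1 - x 1) - (y 1 - x 1) * (z 0 - x 0)) * E3 -
    ((y 0 - x 0) * (w 1 - x 1) - (y 1 - x 1) * (w 0 - x 0)) * E2 +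
    ((z 0 - x 0) * (w 1 - x 1) - (w 0 - x 0) * (z 1 - x 1)) * E1

/-- Lattice points on a sphere have a projection to the plane which is injective on them, respects
sums, and whose image is in general position. -/
theorem exists_good_projection {R : ℕ} (S : Finset (Fin d → ℕ))
    (hS : ∀ x ∈ S, ∑ i, x i ^ 2 = R) :
    ∃ z : Fin 2 × Fin d → ℝ, Set.InjOn (proj z) (S : Set (Fin d → ℕ)) ∧
      GeneralPosition (S.image (proj z)) := by
  classical
  let F1 : Finset (MvPolynomial (Fin 2 × Fin d) ℝ) :=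
    ((S ×ˢ S).filter (fun p => p.1 ≠ p.2)).image (fun p => lin 0 (toR p.2 - toR p.1))
  let F2 : Finset (MvPolynomial (Fin 2 × Fin d) ℝ) :=
    ((S ×ˢ S ×ˢ S).filter (fun p => p.1 ≠ p.2.1 ∧ p.1 ≠ p.2.2 ∧ p.2.1 ≠ p.2.2)).image
      (fun p => colPoly (toR p.2.1 - toR p.1) (toR p.2.2 - toR p.1))
  let F3 : Finset (MvPolynomial (Fin 2 × Fin d) ℝ) :=
    ((S ×ˢ S ×ˢ S ×ˢ S).filter (fun p => p.1 ≠ p.2.1 ∧ p.1 ≠ p.2.2.1 ∧ p.1 ≠ p.2.2.2 ∧
      p.2.1 ≠ p.2.2.1 ∧ p.2.1 ≠ p.2.2.2 ∧ p.2.2.1 ≠ p.2.2.2)).image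
      (fun p => circPoly (toR p.2.1 - toR p.1) (toR p.2.2.1 - toR p.1) (toR p.2.2.2 - toR p.1))
  obtain ⟨z, hz⟩ := exists_eval_ne_zero (F1 ∪ F2 ∪ F3) (by
    intro f hf
    rw [mem_union, mem_union] at hf
    rcases hf with (hf | hf) | hf
    · simp only [F1, mem_image, mem_filter, mem_product] at hf
      obtain ⟨p, ⟨⟨_, _⟩, hne⟩, rfl⟩ := hf
      intro h0
      have h1 : MvPolynomial.eval (fun a : Fin 2 × Fin d => (toR p.2 - toR p.1) a.2)
          (lin 0 (toR p.2 - toR p.1)) = 0 := by rw [h0, map_zero]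
      rw [eval_lin] at h1
      have h2 := dotProduct_self_eq_zero.mp h1
      exact hne (toR_injective (sub_eq_zero.mp h2)).symm
    · simp only [F2, mem_image, mem_filter, mem_product] at hf
      obtain ⟨p, ⟨⟨h1, h2, h3⟩, n1, n2, n3⟩, rfl⟩ := hf
      exact colPoly_ne_zero (notParallel_of_sphere (hS _ h1) (hS _ h2) (hS _ h3) n1 n2 n3)
    · simp only [F3, mem_image, mem_filter, mem_product] at hf
      obtain ⟨p, ⟨⟨h0, h1, h2, h3⟩, n01, n02, n03, n12, n13, n23⟩, rfl⟩ := hf
      exact circPoly_ne_zero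
        (notParallel_of_sphere (hS _ h0) (hS _ h1) (hS _ h2) n01 n02 n12)
        (notParallel_of_sphere (hS _ h0) (hS _ h1) (hS _ h3) n01 n03 n13)
        (notParallel_of_sphere (hS _ h0) (hS _ h2) (hS _ h1) n02 n01 n12.symm)
        (notParallel_of_sphere (hS _ h0) (hS _ h2) (hS _ h3) n02 n03 n23)
        (notParallel_of_sphere (hS _ h0) (hS _ h3) (hS _ h1) n03 n01 n13.symm)
        (notParallel_of_sphere (hS _ h0) (hS _ h3) (hS _ h2) n03 n02 n23.symm))
  have e0 : ∀ a b : Fin d → ℕ, (fun i => z (0, i)) ⬝ᵥ (toR b - toR a) =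
      proj z b 0 - proj z a 0 := by
    intro a b; rw [dotProduct_sub, proj_zero, proj_zero]
  have e1 : ∀ a b : Fin d → ℕ, (fun i => z (1, i)) ⬝ᵥ (toR b - toR a) =
      proj z b 1 - proj z a 1 := by
    intro a b; rw [dotProduct_sub, proj_one, proj_one]
  refine ⟨z, ?_, ?_, ?_⟩
  · intro a ha b hb hab
    by_contra hne
    have h1 := hz (lin 0 (toR b - toR a)) (by
      rw [mem_union, mem_union]; left; left
      simp only [F1, mem_image, mem_filter, mem_product]
      exact ⟨(a, b), ⟨⟨ha, hb⟩, hne⟩, rfl⟩)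
    apply h1
    rw [eval_lin, e0, hab, sub_self]
  · intro T hT hT3 hcol
    rw [card_eq_three] at hT3
    obtain ⟨x, y, w, hxy, hxw, hyw, rfl⟩ := hT3
    have hx := hT (show x ∈ ({x, y, w} : Finset Plane) by simp)
    have hy := hT (show y ∈ ({x, y, w} : Finset Plane) by simp)
    have hw := hT (show w ∈ ({x, y, w} : Finset Plane) by simp)
    rw [mem_image] at hx hy hw
    obtain ⟨a, ha, rfl⟩ := hx
    obtain ⟨b, hb, rfl⟩ := hy
    obtain ⟨c, hc, rfl⟩ := hw
    have hab : a ≠ b := by rintro rfl; exact hxy rfl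
    have hac : a ≠ c := by rintro rfl; exact hxw rfl
    have hbc : b ≠ c := by rintro rfl; exact hyw rfl
    have h1 := hz (colPoly (toR b - toR a) (toR c - toR a)) (by
      rw [mem_union, mem_union]; left; right
      simp only [F2, mem_image, mem_filter, mem_product]
      exact ⟨(a, b, c), ⟨⟨ha, hb, hc⟩, hab, hac, hbc⟩, rfl⟩)
    apply h1
    simp only [colPoly, map_sub, map_mul, eval_lin, e0, e1]
    apply cross_eq_zero_of_collinear
    simpa using hcol
  · intro Q hQ hQ4 hcos
    rw [card_eq_succ] at hQ4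
    obtain ⟨x, Q', hxQ', rfl, hQ'⟩ := hQ4
    rw [card_eq_three] at hQ'
    obtain ⟨y, w, v, hyw, hyv, hwv, rfl⟩ := hQ'
    have hx := hQ (show x ∈ insert x ({y, w, v} : Finset Plane) by simp)
    have hy := hQ (show y ∈ insert x ({y, w, v} : Finset Plane) by simp)
    have hw := hQ (show w ∈ insert x ({y, w, v} : Finset Plane) by simp)
    have hv := hQ (show v ∈ insert x ({y, w, v} : Finset Plane) by simp)
    simp only [mem_insert, mem_singleton, not_or] at hxQ'
    obtain ⟨hxy, hxw, hxv⟩ := hxQ'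
    rw [mem_image] at hx hy hw hv
    obtain ⟨a, ha, rfl⟩ := hx
    obtain ⟨b, hb, rfl⟩ := hy
    obtain ⟨c, hc, rfl⟩ := hw
    obtain ⟨e, he, rfl⟩ := hv
    have hab : a ≠ b := by rintro rfl; exact hxy rfl
    have hac : a ≠ c := by rintro rfl; exact hxw rfl
    have hae : a ≠ e := by rintro rfl; exact hxv rfl
    have hbc : b ≠ c := by rintro rfl; exact hyw rfl
    have hbe : b ≠ e := by rintro rfl; exact hyv rfl
    have hce : c ≠ e := by rintro rfl; exact hwv rfl
    have h1 := hz (circPoly (toR b - toR a) (toR c - toR a) (toR e - toR a)) (by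
      rw [mem_union, mem_union]; right
      simp only [F3, mem_image, mem_filter, mem_product]
      exact ⟨(a, b, c, e), ⟨⟨ha, hb, hc, he⟩, hab, hac, hae, hbc, hbe, hce⟩, rfl⟩)
    apply h1
    rw [eval_circPoly]
    simp only [e0, e1]
    apply detCirc_eq_zero_of_cospherical
    simpa using hcos

/-- A set with distinct circumradii contains no parallelogram. -/
lemma no_parallelogram {Y : Finset Plane} (hgen : GeneralPosition Y) (hY : DistinctCircumradii Y)
    {A B C E : Plane} (hA : A ∈ Y) (hB : B ∈ Y) (hC : C ∈ Y) (hE : E ∈ Y) (hAB : A ≠ B)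
    (hAC : A ≠ C) (hAE : A ≠ E) (hBC : B ≠ C) (hBE : B ≠ E) (hCE : C ≠ E)
    (hsum : A + B = C + E) : False := by
  classical
  let T : Finset Plane := {A, C, B}
  let T' : Finset Plane := {A, E, B}
  have hT : T ⊆ Y := by
    intro x hx
    simp only [T, mem_insert, mem_singleton] at hx
    rcases hx with rfl | rfl | rfl <;> assumption
  have hT' : T' ⊆ Y := by
    intro x hx
    simp only [T', mem_insert, mem_singleton] at hx
    rcases hx with rfl | rfl | rfl <;> assumption
  have hT3 : T.card = 3 := card_eq_three.mpr ⟨A, C, B, hAC, hAB, hBC.symm, rfl⟩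
  have hT3' : T'.card = 3 := card_eq_three.mpr ⟨A, E, B, hAE, hAB, hBE.symm, rfl⟩
  have hne : T ≠ T' := by
    intro h
    have : C ∈ T' := by rw [← h]; simp [T]
    simp only [T', mem_insert, mem_singleton] at this
    rcases this with h1 | h1 | h1
    · exact hAC h1.symm
    · exact hCE h1
    · exact hBC h1.symm
  obtain ⟨r, o, ho⟩ := exists_circumradius hT3 (hgen.1 T hT hT3)
  have hA' := ho A (by simp [T])
  have hB' := ho B (by simp [T])
  have hC' := ho C (by simp [T])
  refine hY T hT T' hT' hT3 hT3' hne r r ⟨o, ho⟩ ⟨A + B - o, ?_⟩ rfl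
  intro x hx
  simp only [T', mem_insert, mem_singleton] at hx
  rcases hx with rfl | rfl | rfl
  · rw [dist_eq_norm]
    have : x - (x + B - o) = -(B - o) := by abel
    rw [this, norm_neg, ← dist_eq_norm]; exact hB'
  · rw [dist_eq_norm]
    have : x - (A + B - o) = -(C - o) := by rw [hsum]; abel
    rw [this, norm_neg, ← dist_eq_norm]; exact hC'
  · rw [dist_eq_norm]
    have : x - (A + x - o) = -(A - o) := by abel
    rw [this, norm_neg, ← dist_eq_norm]; exact hA'

/-- A subset with distinct circumradii of the projected lattice points is small. -/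
theorem card_le_of_distinct {q : ℕ} (S : Finset (Fin d → ℕ))
    (hq : ∀ x ∈ S, ∀ i, x i < q) (z : Fin 2 × Fin d → ℝ)
    (hinj : Set.InjOn (proj z) (S : Set (Fin d → ℕ))) (hgen : GeneralPosition (S.image (proj z)))
    {Y : Finset Plane} (hYS : Y ⊆ S.image (proj z)) (hY : DistinctCircumradii Y) :
    Y.card * Y.card ≤ 2 * (2 * q) ^ d + Y.card := by
  classical
  set Z : Finset (Fin d → ℕ) := S.filter (fun x => proj z x ∈ Y) with hZ
  have hZS : Z ⊆ S := filter_subset _ _
  have hZY : Z.image (proj z) = Y := by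
    ext y
    rw [mem_image]
    constructor
    · rintro ⟨x, hx, rfl⟩
      exact (mem_filter.mp hx).2
    · intro hy
      obtain ⟨x, hx, rfl⟩ := mem_image.mp (hYS hy)
      exact ⟨x, mem_filter.mpr ⟨hx, hy⟩, rfl⟩
  have hZcard : Z.card = Y.card := by
    rw [← hZY]
    exact (card_image_of_injOn (hinj.mono (coe_subset.mpr hZS))).symm
  have hgenY : GeneralPosition Y :=
    ⟨fun T hT => hgen.1 T (hT.trans hYS), fun Q hQ => hgen.2 Q (hQ.trans hYS)⟩
  have hmemY : ∀ x ∈ Z, proj z x ∈ Y := fun x hx => (mem_filter.mp hx).2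
  let f : (Fin d → ℕ) × (Fin d → ℕ) → (Fin d → ℕ) := fun p => p.1 + p.2
  have hfib : ∀ s ∈ Z.offDiag.image f, (Z.offDiag.filter (fun p => f p = s)).card ≤ 2 := by
    intro s hs
    rw [mem_image] at hs
    obtain ⟨⟨a, b⟩, hab, rfl⟩ := hs
    rw [mem_offDiag] at hab
    obtain ⟨ha, hb, hne⟩ := hab
    simp only at ha hb hne
    have hsub : Z.offDiag.filter (fun p => f p = f (a, b)) ⊆ {(a, b), (b, a)} := by
      rintro ⟨c, e⟩ hce
      rw [mem_filter, mem_offDiag] at hce
      obtain ⟨⟨hc, he, hne'⟩, hsum⟩ := hce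
      simp only [f] at hc he hne' hsum
      rw [mem_insert, mem_singleton]
      by_contra hcon
      push Not at hcon
      obtain ⟨hcon1, hcon2⟩ := hcon
      have hca : c ≠ a := by
        rintro rfl
        apply hcon1
        have : e = b := add_left_cancel hsum
        rw [this]
      have hcb : c ≠ b := by
        rintro rfl
        apply hcon2
        have : e = a := by
          rw [add_comm a c] at hsum
          exact add_left_cancel hsum
        rw [this]
      have hea : e ≠ a := by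
        rintro rfl
        apply hcb
        rw [add_comm e b] at hsum
        exact add_right_cancel hsum
      have heb : e ≠ b := by
        rintro rfl
        apply hca
        exact add_right_cancel hsum
      have hproj : ∀ x ∈ Z, ∀ y ∈ Z, x ≠ y → proj z x ≠ proj z y := by
        intro x hx y hy hxy h
        exact hxy (hinj (mem_coe.mpr (hZS hx)) (mem_coe.mpr (hZS hy)) h)
      refine no_parallelogram hgenY hY (hmemY a ha) (hmemY b hb) (hmemY c hc) (hmemY e he)
        (hproj a ha b hb hne) (hproj a ha c hc hca.symm) (hproj a ha e he hea.symm)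
        (hproj b hb c hc hcb.symm) (hproj b hb e he heb.symm) (hproj c hc e he hne') ?_
      rw [← proj_add, ← proj_add, hsum]
    calc (Z.offDiag.filter (fun p => f p = f (a, b))).card ≤ _ := card_le_card hsub
      _ ≤ 2 := card_le_two
  have h1 := card_le_mul_card_image (s := Z.offDiag) (f := f) 2 hfib
  have h2 : (Z.offDiag.image f).card ≤ (2 * q) ^ d := by
    have hsub : Z.offDiag.image f ⊆ Fintype.piFinset (fun _ : Fin d => range (2 * q)) := by
      intro s hs
      rw [mem_image] at hs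
      obtain ⟨⟨a, b⟩, hab, rfl⟩ := hs
      rw [mem_offDiag] at hab
      obtain ⟨ha, hb, _⟩ := hab
      simp only at ha hb
      rw [Fintype.mem_piFinset]
      intro i
      rw [mem_range]
      have e1 := hq a (hZS ha) i
      have e2 := hq b (hZS hb) i
      simp only [f, Pi.add_apply]
      omega
    calc (Z.offDiag.image f).card ≤ _ := card_le_card hsub
      _ = (2 * q) ^ d := by simp
  rw [offDiag_card, hZcard] at h1
  have h3 : Y.card ≤ Y.card * Y.card := Nat.le_mul_self _
  omega

/-- The lattice construction: a set in general position of size at least `q^d / (d q²)` in which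
every subset with distinct circumradii has at most about `√2 (2q)^{d/2}` points. -/
theorem exists_lattice_set (d q : ℕ) (hd : 1 ≤ d) (hq : 1 ≤ q) :
    ∃ X : Finset Plane, GeneralPosition X ∧ q ^ d ≤ X.card * (d * q ^ 2) ∧
      ∀ Y ⊆ X, DistinctCircumradii Y → Y.card * Y.card ≤ 2 * (2 * q) ^ d + Y.card := by
  classical
  let G : Finset (Fin d → ℕ) := Fintype.piFinset (fun _ : Fin d => range q)
  have hG : G.card = q ^ d := by simp [G]
  have hmaps : ∀ x ∈ G, ∑ i, x i ^ 2 ∈ range (d * q ^ 2) := by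
    intro x hx
    rw [Fintype.mem_piFinset] at hx
    rw [mem_range]
    have h1 : ∀ i, x i ^ 2 < q ^ 2 := by
      intro i
      have := hx i
      rw [mem_range] at this
      exact Nat.pow_lt_pow_left this (by norm_num)
    have h2 : ∑ i : Fin d, x i ^ 2 < ∑ i : Fin d, q ^ 2 := by
      apply Finset.sum_lt_sum_of_nonempty
      · exact ⟨⟨0, by omega⟩, mem_univ _⟩
      · intro i _; exact h1 i
    simpa using h2
  obtain ⟨R, _, hR⟩ : ∃ R ∈ range (d * q ^ 2),
      q ^ d ≤ (G.filter (fun x => ∑ i, x i ^ 2 = R)).card * (d * q ^ 2) := by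
    by_contra hcon
    push Not at hcon
    have h1 : G.card = ∑ R ∈ range (d * q ^ 2), (G.filter (fun x => ∑ i, x i ^ 2 = R)).card :=
      card_eq_sum_card_fiberwise hmaps
    have hpos : 0 < d * q ^ 2 := by positivity
    have h2 : ∑ R ∈ range (d * q ^ 2),
        (G.filter (fun x => ∑ i, x i ^ 2 = R)).card * (d * q ^ 2) <
        ∑ R ∈ range (d * q ^ 2), q ^ d := by
      apply Finset.sum_lt_sum_of_nonempty
      · exact ⟨0, mem_range.mpr hpos⟩
      · intro R hR; exact hcon R hR
    rw [← sum_mul, ← h1, hG, sum_const, card_range, smul_eq_mul, mul_comm] at h2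
    exact lt_irrefl _ h2
  set S := G.filter (fun x => ∑ i, x i ^ 2 = R) with hS
  obtain ⟨z, hinj, hgen⟩ := exists_good_projection S (R := R)
    (fun x hx => (mem_filter.mp hx).2)
  refine ⟨S.image (proj z), hgen, ?_, ?_⟩
  · rw [card_image_of_injOn hinj]; exact hR
  · intro Y hYS hY
    refine card_le_of_distinct S ?_ z hinj hgen hYS hY
    intro x hx i
    have h1 := (mem_filter.mp hx).1
    rw [Fintype.mem_piFinset] at h1
    exact mem_range.mp (h1 i)

end Pool.Agent.Lib.MP_cd3201_co
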