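import Mathlib
import Pool.Agent.Lib.MP_cd3201_co.Defs
import Pool.Agent.Lib.MP_cd3201_co.Generic
import Pool.Agent.Lib.MP_cd3201_co.Lattice

/-!
# Few circumradii for projected lattice points

The circumradius of a triple of projected lattice points only depends on the two difference
vectors, so a projected lattice set has at most `(2q)^(2d)` circumradii.
-/

open Finset

namespace Pool.Agent.Lib.MP_cd3201_co

variable {d : ℕ}

/-- Translating a set does not change its circumradii. -/
lemma IsCircumradius.sub {T : Finset Plane} {r : ℝ} (h : IsCircumradius T r) (a : Plane) :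
    IsCircumradius (T.image (fun x => x - a)) r := by
  obtain ⟨c, hc⟩ := h
  refine ⟨c - a, ?_⟩
  intro x hx
  rw [mem_image] at hx
  obtain ⟨y, hy, rfl⟩ := hx
  rw [dist_sub_right]
  exact hc y hy

/-- the set of circumradii of the triples of `P` -/
def radii (P : Finset Plane) : Set ℝ := {r : ℝ | ∃ T ⊆ P, T.card = 3 ∧ IsCircumradius T r}

/-- The set of circumradii is finite. -/
theorem radii_finite (P : Finset Plane) : (radii P).Finite := by
  classical
  refine Set.Finite.subset (s := ((P.powersetCard 3).image
    (fun T => if h : ∃ r, IsCircumradius T r then h.choose else 0) : Finset ℝ))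
    (Finset.finite_toSet _) ?_
  rintro r ⟨T, hT, hT3, hr⟩
  rw [mem_coe, mem_image]
  refine ⟨T, mem_powersetCard.mpr ⟨hT, hT3⟩, ?_⟩
  have h : ∃ r, IsCircumradius T r := ⟨r, hr⟩
  rw [dif_pos h]
  exact circumradius_unique hT3 h.choose_spec hr

/-- A projected lattice set has few circumradii. -/
theorem ncard_radii_le {q : ℕ} (S : Finset (Fin d → ℕ))
    (hq : ∀ x ∈ S, ∀ i, x i < q) (z : Fin 2 × Fin d → ℝ)
    {Y : Finset Plane} (hYS : Y ⊆ S.image (proj z)) :
    (radii Y).ncard ≤ (2 * q) ^ d * (2 * q) ^ d := by
  classical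
  let D : Finset (Fin d → ℕ) := Fintype.piFinset (fun _ : Fin d => range (2 * q))
  have hD : D.card = (2 * q) ^ d := by simp [D]
  let Pz : (Fin d → ℕ) → Plane := fun u => proj z u - proj z (fun _ => q)
  let ρ : (Fin d → ℕ) × (Fin d → ℕ) → ℝ := fun p =>
    if h : ∃ r, IsCircumradius {0, Pz p.1, Pz p.2} r then h.choose else 0
  have hsub : radii Y ⊆ (((D ×ˢ D).image ρ : Finset ℝ) : Set ℝ) := by
    rintro r ⟨T, hT, hT3, hr⟩
    obtain ⟨x, y, w, hxy, hxw, hyw, rfl⟩ := card_eq_three.mp hT3
    have hx := hYS (hT (show x ∈ ({x, y, w} : Finset Plane) by simp))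
    have hy := hYS (hT (show y ∈ ({x, y, w} : Finset Plane) by simp))
    have hw := hYS (hT (show w ∈ ({x, y, w} : Finset Plane) by simp))
    rw [mem_image] at hx hy hw
    obtain ⟨a, ha, rfl⟩ := hx
    obtain ⟨b, hb, rfl⟩ := hy
    obtain ⟨c, hc, rfl⟩ := hw
    have key : ∀ b' ∈ S, Pz (fun i => b' i + q - a i) = proj z b' - proj z a := by
      intro b' _
      have e : (fun i => b' i + q - a i) + a = b' + (fun _ => q) := by
        funext i
        have h1 := hq a ha i
        simp only [Pi.add_apply]
        omega
      have e2 := congrArg (proj z) e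
      rw [proj_add, proj_add] at e2
      simp only [Pz]
      rw [sub_eq_sub_iff_add_eq_add]
      exact e2
    rw [mem_coe, mem_image]
    refine ⟨((fun i => b i + q - a i), (fun i => c i + q - a i)), ?_, ?_⟩
    · rw [mem_product]
      constructor
      · simp only [D, Fintype.mem_piFinset, mem_range]
        intro i
        have h1 := hq a ha i
        have h2 := hq b hb i
        omega
      · simp only [D, Fintype.mem_piFinset, mem_range]
        intro i
        have h1 := hq a ha i
        have h2 := hq c hc i
        omega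
    · have h1 := hr.sub (proj z a)
      have himg : ({proj z a, proj z b, proj z c} : Finset Plane).image (fun x => x - proj z a) =
          {0, proj z b - proj z a, proj z c - proj z a} := by
        rw [image_insert, image_insert, image_singleton, sub_self]
      rw [himg] at h1
      have hcard : ({0, proj z b - proj z a, proj z c - proj z a} : Finset Plane).card = 3 := by
        rw [← himg, card_image_of_injective _ sub_left_injective]
        exact hT3
      rw [← key b hb, ← key c hc] at h1 hcard
      have h2 : ∃ r, IsCircumradius {0, Pz (fun i => b i + q - a i),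
          Pz (fun i => c i + q - a i)} r := ⟨r, h1⟩
      simp only [ρ]
      rw [dif_pos h2]
      exact circumradius_unique hcard h2.choose_spec h1
  calc (radii Y).ncard ≤ (((D ×ˢ D).image ρ : Finset ℝ) : Set ℝ).ncard :=
        Set.ncard_le_ncard hsub (Finset.finite_toSet _)
    _ = ((D ×ˢ D).image ρ).card := Set.ncard_coe_finset _
    _ ≤ (D ×ˢ D).card := card_image_le
    _ = (2 * q) ^ d * (2 * q) ^ d := by rw [card_product, hD]

/-- The lattice construction: a set in general position of size at least `q^d / (d q²)` all of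
whose subsets have at most `(2q)^(2d)` circumradii. -/
theorem exists_few_radii_set (d q : ℕ) (hd : 1 ≤ d) (hq : 1 ≤ q) :
    ∃ X : Finset Plane, GeneralPosition X ∧ q ^ d ≤ X.card * (d * q ^ 2) ∧
      ∀ Y ⊆ X, (radii Y).ncard ≤ (2 * q) ^ d * (2 * q) ^ d := by
  classical
  let G : Finset (Fin d → ℕ) := Fintype.piFinset (fun _ : Fin d => range q)
  have hG : G.card = q ^ d := by simp [G]
  have hmaps : ∀ x ∈ G, ∑ i, x i ^ 2 ∈ range (d * q ^ 2) := by
    intro x hx
    rw [Fintype.mem_piFinset] at hx
    rw [mem_range]
    have h1 : ∀ i, x i ^ 2 < q ^ 2 := by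
      intro i
      have := hx i
      rw [mem_range] at this
      exact Nat.pow_lt_pow_left this (by norm_num)
    have h2 : ∑ i : Fin d, x i ^ 2 < ∑ i : Fin d, q ^ 2 := by
      apply Finset.sum_lt_sum_of_nonempty
      · exact ⟨⟨0, by omega⟩, mem_univ _⟩
      · intro i _; exact h1 i
    simpa using h2
  obtain ⟨R, _, hR⟩ : ∃ R ∈ range (d * q ^ 2),
      q ^ d ≤ (G.filter (fun x => ∑ i, x i ^ 2 = R)).card * (d * q ^ 2) := by
    by_contra hcon
    push Not at hcon
    have h1 : G.card = ∑ R ∈ range (d * q ^ 2), (G.filter (fun x => ∑ i, x i ^ 2 = R)).card :=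
      card_eq_sum_card_fiberwise hmaps
    have hpos : 0 < d * q ^ 2 := by positivity
    have h2 : ∑ R ∈ range (d * q ^ 2),
        (G.filter (fun x => ∑ i, x i ^ 2 = R)).card * (d * q ^ 2) <
        ∑ R ∈ range (d * q ^ 2), q ^ d := by
      apply Finset.sum_lt_sum_of_nonempty
      · exact ⟨0, mem_range.mpr hpos⟩
      · intro R hR; exact hcon R hR
    rw [← sum_mul, ← h1, hG, sum_const, card_range, smul_eq_mul, mul_comm] at h2
    exact lt_irrefl _ h2
  set S := G.filter (fun x => ∑ i, x i ^ 2 = R) with hS
  obtain ⟨z, hinj, hgen⟩ := exists_good_projection S (R := R)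
    (fun x hx => (mem_filter.mp hx).2)
  refine ⟨S.image (proj z), hgen, ?_, ?_⟩
  · rw [card_image_of_injOn hinj]; exact hR
  · intro Y hYS
    refine ncard_radii_le S ?_ z hYS
    intro x hx i
    have h1 := (mem_filter.mp hx).1
    rw [Fintype.mem_piFinset] at h1
    exact mem_range.mp (h1 i)

end Pool.Agent.Lib.MP_cd3201_co
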